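import Pool.Agent.H66.OwaDefs

/-! A non-utilitarian sequential OWA rule under which free-riding is never harmful. -/

namespace Pool.Agent.Results.MP_57045c_lc.Exists

open Pool.Agent.H66.Owa Classical

theorem best_max {c : ℕ} (f : Fin (c + 1) → ℝ) (y) : f y ≤ f (best f) := by
  have : best f ∈ Finset.univ.filter fun x => ∀ y, f y ≤ f x := Finset.min'_mem _ _
  exact (Finset.mem_filter.1 this).2 y

theorem best_min {c : ℕ} (f : Fin (c + 1) → ℝ) (x) (h : ∀ y, f y ≤ f x) : best f ≤ x :=
  Finset.min'_le _ _ (Finset.mem_filter.2 ⟨Finset.mem_univ _, h⟩)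

theorem best_ne {c : ℕ} (f g : Fin (c + 1) → ℝ) (h : best f ≠ best g) :
    f (best g) < f (best f) ∨ g (best f) < g (best g) := by
  by_contra hn
  push Not at hn
  exact h (le_antisymm (best_min f _ fun y => (best_max f y).trans hn.1)
    (best_min g _ fun y => (best_max g y).trans hn.2))

theorem owa_one {n : ℕ} (s : Fin n → ℕ) : owa (fun _ => 1) s = ∑ v, (s v : ℝ) := by
  unfold owa
  simp only [one_mul]
  exact Equiv.sum_comp (Tuple.sort s) fun v => (s v : ℝ)

theorem owa_two (s : Fin 2 → ℕ) (v u : Fin 2) (h : v ≠ u) :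
    owa ![2, 1] s = ((s v + s u + min (s v) (s u) : ℕ) : ℝ) := by
  have h1 : s (Tuple.sort s 0) ≤ s (Tuple.sort s 1) := Tuple.monotone_sort s (by decide : (0 : Fin 2) ≤ 1)
  have h2 : Tuple.sort s 0 ≠ Tuple.sort s 1 := (Tuple.sort s).injective.ne (by decide)
  unfold owa
  rw [Fin.sum_univ_two]
  generalize Tuple.sort s 0 = a, Tuple.sort s 1 = b at h1 h2
  have : 2 * s a + s b = s v + s u + min (s v) (s u) := by
    fin_cases a <;> fin_cases b <;> fin_cases v <;> fin_cases u <;> simp at * <;> omega
  rw [← this]; simp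

variable {n k : ℕ} {m : Fin k → ℕ}

theorem state_sat (α : Fin n → ℝ) (E : Election n k m) (v : Fin n) :
    state α E k v = sat E v (outcome α E) := by
  have : ∀ t, state α E t v = ∑ j ∈ Finset.range t, if h : j < k then
      (if pick α E ⟨j, h⟩ (state α E j) ∈ E.A ⟨j, h⟩ v then 1 else 0) else 0 := by
    intro t
    induction t with
    | zero => rfl
    | succ t ih => rw [Finset.sum_range_succ, ← ih]; rfl
  rw [this, Finset.sum_range, sat, Finset.card_filter]
  exact Finset.sum_congr rfl fun j _ => by simp [outcome]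

theorem pick_congr (α : Fin n → ℝ) {E E' : Election n k m} {j : Fin k}
    (h : ∀ u, E'.A j u = E.A j u) (s) : pick α E' j s = pick α E j s := by
  simp only [pick, h]

theorem util {E E' : Election n k m} {v i} (h : FreeRides (fun _ => 1) E E' v i) :
    outcome (fun _ => 1) E' = outcome (fun _ => 1) E := by
  funext j
  by_cases hj : j = i
  · subst hj; exact h.2.2.2
  unfold outcome
  rw [pick_congr _ fun u => h.1 j u (Or.inl hj)]
  by_contra hn
  have := best_ne _ _ hn
  have h1 := best_max (fun c => owa (fun _ => 1) fun v => state (fun _ => 1) E' j v +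
    if c ∈ E.A j v then 1 else 0) (pick (fun _ => 1) E j (state (fun _ => 1) E j))
  have h2 := best_max (fun c => owa (fun _ => 1) fun v => state (fun _ => 1) E j v +
    if c ∈ E.A j v then 1 else 0) (pick (fun _ => 1) E j (state (fun _ => 1) E' j))
  simp only [owa_one, Nat.cast_add, Finset.sum_add_distrib, pick] at this h1 h2
  rcases this with h | h <;> linarith

theorem key (E : Election 2 k m) (j : Fin k) (s s' : Fin 2 → ℕ) {v u : Fin 2} (h : v ≠ u)
    (hd : s v + s' u = s' v + s u + 1) : pick ![2, 1] E j s = pick ![2, 1] E j s' ∨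
      (pick ![2, 1] E j s ∉ E.A j v ∧ pick ![2, 1] E j s ∈ E.A j u ∧
        pick ![2, 1] E j s' ∈ E.A j v ∧ pick ![2, 1] E j s' ∉ E.A j u) := by
  by_cases hn : pick ![2, 1] E j s = pick ![2, 1] E j s'
  · exact Or.inl hn
  right
  have := best_ne _ _ hn
  have h1 := best_max (fun c => owa ![2, 1] fun v => s v + if c ∈ E.A j v then 1 else 0)
    (pick ![2, 1] E j s')
  have h2 := best_max (fun c => owa ![2, 1] fun v => s' v + if c ∈ E.A j v then 1 else 0)
    (pick ![2, 1] E j s)
  change _ < owa _ (fun v => s v + if pick ![2, 1] E j s ∈ E.A j v then 1 else 0) ∨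
    _ < owa _ (fun v => s' v + if pick ![2, 1] E j s' ∈ E.A j v then 1 else 0) at this
  change _ ≤ owa _ (fun v => s v + if pick ![2, 1] E j s ∈ E.A j v then 1 else 0) at h1
  change _ ≤ owa _ (fun v => s' v + if pick ![2, 1] E j s' ∈ E.A j v then 1 else 0) at h2
  change owa _ (fun v => s v + if pick ![2, 1] E j s' ∈ E.A j v then 1 else 0) < _ ∨
    owa _ (fun v => s' v + if pick ![2, 1] E j s ∈ E.A j v then 1 else 0) < _ at this
  simp only [owa_two _ v u h, Nat.cast_lt, Nat.cast_le] at this h1 h2
  generalize pick ![2, 1] E j s = c, pick ![2, 1] E j s' = c' at *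
  by_cases a1 : c ∈ E.A j v <;> by_cases a2 : c ∈ E.A j u <;> by_cases a3 : c' ∈ E.A j v <;>
    by_cases a4 : c' ∈ E.A j u <;> simp only [a1, a2, a3, a4, if_true, if_false] at this h1 h2 ⊢ <;>
    first | omega | simp

theorem two {E E' : Election 2 k m} {v i} (h : FreeRides ![2, 1] E E' v i) :
    sat E v (outcome ![2, 1] E) ≤ sat E v (outcome ![2, 1] E') := by
  obtain ⟨u, hu⟩ : ∃ u : Fin 2, v ≠ u := by fin_cases v; exacts [⟨1, by decide⟩, ⟨0, by decide⟩]
  have e0 : ∀ t ≤ i.val, state ![2, 1] E' t = state ![2, 1] E t := by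
    intro t ht
    induction t with
    | zero => rfl
    | succ t ih =>
      have ht' : t < k := by have := i.2; omega
      have hne : ∀ w, E'.A ⟨t, ht'⟩ w = E.A ⟨t, ht'⟩ w := fun w =>
        h.1 _ w (Or.inl fun e => by have := congrArg Fin.val e; simp at this; omega)
      funext w
      simp only [state, ih (by omega), ht', dite_true, pick_congr _ hne, hne]
  have inv : ∀ t, i.val < t → t ≤ k →
      (state ![2, 1] E t v = state ![2, 1] E' t v + 1 ∧ state ![2, 1] E t u = state ![2, 1] E' t u) ∨
      (state ![2, 1] E t v = state ![2, 1] E' t v ∧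
        state ![2, 1] E t u = state ![2, 1] E' t u + 1) := by
    intro t ht
    induction t, ht using Nat.le_induction with
    | base =>
      intro _
      left
      have h1 := h.2.1; have h2 := h.2.2.1; have h3 := h.2.2.2
      unfold outcome at h1 h2 h3
      simp only [state, i.2, dite_true, Fin.eta, h3, h1, h2, if_true, if_false,
        h.1 i u (Or.inr hu.symm)]
      rw [e0 i le_rfl]; simp
    | succ t ht ih =>
      intro hk
      have ht' : t < k := hk
      have hne : ∀ w, E'.A ⟨t, ht'⟩ w = E.A ⟨t, ht'⟩ w := fun w =>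
        h.1 _ w (Or.inl fun e => by have := congrArg Fin.val e; simp at this; omega)
      simp only [state, ht', dite_true, pick_congr _ hne, hne]
      rcases ih ht'.le with ⟨a, b⟩ | ⟨a, b⟩
      · rcases key E ⟨t, ht'⟩ (state ![2, 1] E t) (state ![2, 1] E' t) hu (by omega) with e | e
        · rw [e]; omega
        · simp only [e.1, e.2.1, e.2.2.1, e.2.2.2, if_true, if_false]; omega
      · rcases key E ⟨t, ht'⟩ (state ![2, 1] E' t) (state ![2, 1] E t) hu (by omega) with e | e
        · rw [e]; omega
        · simp only [e.1, e.2.1, e.2.2.1, e.2.2.2, if_true, if_false]; omega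
  have fin : sat E v (outcome ![2, 1] E') = sat E' v (outcome ![2, 1] E') + 1 := by
    unfold sat
    rw [← Finset.card_insert_of_notMem (a := i) (by simp [h.2.2.2, h.2.2.1])]
    congr 1
    ext j
    by_cases hj : j = i
    · subst hj; simp [h.2.2.2, h.2.1]
    · simp [hj, h.1 j v (Or.inl hj)]
  rw [fin, ← state_sat, ← state_sat]
  have := inv k i.2 le_rfl
  omega

theorem result : ∃ α : (n : ℕ) → Fin n → ℝ, IsRule α ∧ (∃ n, ∃ j j' : Fin n, α n j ≠ α n j') ∧
    NeverHarmful α := by
  refine ⟨fun n j => if n = 2 ∧ j.val = 0 then 2 else 1, fun n j => ?_,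
    ⟨2, 0, 1, by norm_num⟩, fun n k m E E' v i h => ?_⟩
  · beta_reduce; split_ifs <;> simp
  · by_cases hn : n = 2
    · subst hn
      have : (fun j : Fin 2 => if 2 = 2 ∧ j.val = 0 then (2 : ℝ) else 1) = ![2, 1] := by
        funext j; fin_cases j <;> simp
      beta_reduce at h ⊢
      rw [this] at h ⊢
      exact two h
    · simp only [hn, false_and, if_false] at h ⊢
      rw [util h]

end Pool.Agent.Results.MP_57045c_lc.Exists
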